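import Pool.Agent.MPbd47c3.Net

/-!
# Metrics of polytree Bayesian networks embed into `ℓ₁` with constant distortion in `O(log³ N)`
dimensions
-/

namespace Pool.Agent.Results.MP_bd47c3_lc.Embedding

open Finset Filter Topology Pool.Agent.MPbd47c3

/-! ### Definitions -/

open Classical in
/-- The probability of the event `A` under the distribution `D` on `{0,1}^N`. -/
noncomputable def Pr {N : ℕ} (D : (Fin N → Bool) → ℝ) (A : (Fin N → Bool) → Prop) : ℝ :=
  ∑ x ∈ Finset.univ.filter A, D x

/-- `(G, D)` is a Bayesian network on `N` binary variables: `G` is a directed acyclic graph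
(`G u v` means that `u → v` is an edge), `D` is a probability distribution on `{0,1}^N`, and
`D(x) = ∏ v, Pr[X_v = x_v | X_pa(v) = x_pa(v)]`.  (If some conditioning event has probability
`0`, the product is `0` by the convention `a / 0 = 0`, and so is `D x`.) -/
structure IsBayesNet {N : ℕ} (G : Fin N → Fin N → Prop) (D : (Fin N → Bool) → ℝ) : Prop where
  acyclic : ∀ v, ¬ Relation.TransGen G v v
  nonneg : ∀ x, 0 ≤ D x
  sum_one : ∑ x, D x = 1
  factor : ∀ x, D x = ∏ v, Pr D (fun y => y v = x v ∧ ∀ u, G u v → y u = x u) /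
    Pr D (fun y => ∀ u, G u v → y u = x u)

/-- A polytree network: the undirected graph underlying `G` is a tree. -/
def IsPolytreeNet {N : ℕ} (G : Fin N → Fin N → Prop) (D : (Fin N → Bool) → ℝ) : Prop :=
  IsBayesNet G D ∧ (SimpleGraph.fromRel G).IsTree

/-- `d_D(i,j) = Pr[X_i ≠ X_j]`. -/
noncomputable def dD {N : ℕ} (D : (Fin N → Bool) → ℝ) (i j : Fin N) : ℝ :=
  Pr D (fun x => x i ≠ x j)

/-- `d` embeds into `ℓ₁^k` with distortion `C`. -/
def Embeds {N : ℕ} (k : ℕ) (d : Fin N → Fin N → ℝ) (C : ℝ) : Prop :=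
  ∃ (f : Fin N → Fin k → ℝ) (s : ℝ), 0 < s ∧ ∀ i j,
    s * d i j ≤ ∑ c, |f i c - f j c| ∧ ∑ c, |f i c - f j c| ≤ C * s * d i j

/-- `k` dimensions suffice for all polytree networks on `N` binary variables. -/
def Suffices (C : ℝ) (N k : ℕ) : Prop :=
  ∀ (G : Fin N → Fin N → Prop) (D : (Fin N → Bool) → ℝ), IsPolytreeNet G D → Embeds k (dD D) C

/-- `k_C(N)`: the least number of dimensions that suffices. -/
noncomputable def kC (C : ℝ) (N : ℕ) : ℕ := sInf {k | Suffices C N k}

/-! ### From the definition to conditional probability tables -/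

section reduction

variable {N : ℕ} {G : Fin N → Fin N → Prop} {D : (Fin N → Bool) → ℝ}

theorem Pr_nonneg (h : ∀ x, 0 ≤ D x) (A : (Fin N → Bool) → Prop) : 0 ≤ Pr D A :=
  sum_nonneg fun x _ => h x

theorem Pr_congr {A B : (Fin N → Bool) → Prop} (h : ∀ x, A x ↔ B x) : Pr D A = Pr D B := by
  have : A = B := funext fun x => propext (h x)
  rw [this]

theorem Pr_split (A : (Fin N → Bool) → Prop) (v : Fin N) :
    Pr D (fun y => y v = true ∧ A y) + Pr D (fun y => y v = false ∧ A y) = Pr D A := by
  classical
  unfold Pr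
  simp only [sum_filter]
  rw [← sum_add_distrib]
  refine sum_congr rfl fun x _ => ?_
  by_cases hA : A x
  · rcases Bool.eq_false_or_eq_true (x v) with hx | hx <;> simp [hA, hx]
  · simp [hA]

open Classical in
/-- the conditional probability table -/
noncomputable def cpt (G : Fin N → Fin N → Prop) (D : (Fin N → Bool) → ℝ) (v : Fin N)
    (x : Fin N → Bool) : ℝ :=
  if Pr D (fun y => ∀ u, G u v → y u = x u) = 0 then 1 / 2
  else Pr D (fun y => y v = x v ∧ ∀ u, G u v → y u = x u) /
    Pr D (fun y => ∀ u, G u v → y u = x u)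

open Classical in
/-- a topological order -/
noncomputable def topo (G : Fin N → Fin N → Prop) (v : Fin N) : ℕ :=
  (univ.filter fun u => Relation.TransGen G u v).card * N + v

theorem topo_inj : Function.Injective (topo G) := by
  intro u v h
  unfold topo at h
  have hu := u.2
  have hv := v.2
  have h1 := congrArg (· % N) h
  simp only [Nat.add_mod, Nat.mul_mod_left, zero_add, Nat.mod_mod] at h1
  rw [Nat.mod_eq_of_lt hu, Nat.mod_eq_of_lt hv] at h1
  exact Fin.ext h1

theorem topo_lt (hG : ∀ v, ¬ Relation.TransGen G v v) {u v : Fin N} (h : G u v) :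
    topo G u < topo G v := by
  classical
  unfold topo
  have hlt : (univ.filter fun a => Relation.TransGen G a u).card <
      (univ.filter fun a => Relation.TransGen G a v).card := by
    apply card_lt_card
    rw [ssubset_iff_of_subset]
    · refine ⟨u, ?_, ?_⟩
      · rw [mem_filter]
        exact ⟨mem_univ _, Relation.TransGen.single h⟩
      · rw [mem_filter]
        exact fun h1 => hG u h1.2
    · intro a ha
      rw [mem_filter] at ha ⊢
      exact ⟨mem_univ _, ha.2.tail h⟩
  have hu := u.2
  calc _ < (univ.filter fun a => Relation.TransGen G a u).card * N + N := by omega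
    _ = ((univ.filter fun a => Relation.TransGen G a u).card + 1) * N := by ring
    _ ≤ (univ.filter fun a => Relation.TransGen G a v).card * N :=
      Nat.mul_le_mul_right N hlt
    _ ≤ _ := by omega

theorem cpt_net (h : IsBayesNet G D) : Net G (topo G) (cpt G D) where
  inj := topo_inj
  lt u v huv := topo_lt h.acyclic huv
  nonneg v x := by
    unfold cpt
    split_ifs
    · norm_num
    · exact div_nonneg (Pr_nonneg h.nonneg _) (Pr_nonneg h.nonneg _)
  sum_one v x := by
    have hv : ¬ G v v := fun h1 => h.acyclic v (Relation.TransGen.single h1)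
    have e : ∀ b (y : Fin N → Bool),
        (∀ u, G u v → y u = Function.update x v b u) ↔ (∀ u, G u v → y u = x u) := by
      intro b y
      apply forall_congr'
      intro u
      by_cases hu : u = v
      · subst hu
        simp [hv]
      · rw [Function.update_of_ne hu]
    unfold cpt
    simp only [e, Function.update_self]
    split_ifs with h0
    · norm_num
    · rw [← add_div, Pr_split]
      exact div_self h0
  loc v x y hv hpa := by
    have e1 : ∀ z : Fin N → Bool, (∀ u, G u v → z u = x u) ↔ (∀ u, G u v → z u = y u) := by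
      intro z
      apply forall_congr'
      intro u
      apply forall_congr'
      intro hu
      rw [hpa u hu]
    unfold cpt
    simp only [e1, hv]

theorem E_univ_eq_sum (θ : Fin N → (Fin N → Bool) → ℝ) (f : (Fin N → Bool) → ℝ) :
    Net.E θ univ f = ∑ x, f x * ∏ v, θ v x := by
  unfold Net.E avg
  rw [sum_div]
  refine sum_congr rfl fun x _ => ?_
  rw [prod_mul_distrib, prod_const, card_univ]
  field_simp

theorem eq_prod_cpt (h : IsBayesNet G D) (x : Fin N → Bool) : D x = ∏ v, cpt G D v x := by
  have hle : ∀ x, D x ≤ ∏ v, cpt G D v x := by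
    intro x
    rw [h.factor x]
    apply Finset.prod_le_prod
    · intro v _
      exact div_nonneg (Pr_nonneg h.nonneg _) (Pr_nonneg h.nonneg _)
    · intro v _
      unfold cpt
      split_ifs with h0
      · rw [h0, div_zero]; norm_num
      · exact le_rfl
  have hsum : ∑ x, D x = ∑ x, ∏ v, cpt G D v x := by
    rw [h.sum_one]
    have := (cpt_net h).E_univ_one
    rw [E_univ_eq_sum] at this
    simpa using this.symm
  have := (sum_eq_sum_iff_of_le fun x _ => hle x).mp hsum
  exact this x (mem_univ x)

theorem dD_eq (h : IsBayesNet G D) (i j : Fin N) :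
    dD D i j = Net.E (cpt G D) univ (fun x => if x i = x j then 0 else 1) := by
  classical
  rw [E_univ_eq_sum]
  unfold dD Pr
  rw [sum_filter]
  refine sum_congr rfl fun x _ => ?_
  rw [← eq_prod_cpt h x]
  by_cases hx : x i = x j <;> simp [hx]

end reduction

/-! ### The dimension bound -/

theorem exists_dim (N : ℕ) : ∃ k : ℕ, k ≤ 193 * (Nat.log 2 N + 1) ^ 3 ∧ Suffices 86064 N k := by
  obtain ⟨q₁, hq₁, E₁, hE₁⟩ := exists_code (Fin N × Bool)
  obtain ⟨q₂, hq₂, E₂, hE₂⟩ := exists_code (Fin N)
  refine ⟨Fintype.card (Idx (Fin N) q₁ q₂), ?_, ?_⟩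
  · simp only [Fintype.card_sum, Fintype.card_unit, Fintype.card_prod, Fintype.card_fin]
    rw [Fintype.card_fin] at hq₂
    rw [Fintype.card_prod, Fintype.card_fin, Fintype.card_bool] at hq₁
    have hlog : Nat.log 2 (N * 2) ≤ Nat.log 2 N + 1 := by
      rcases Nat.eq_zero_or_pos N with rfl | hN
      · simp
      · rw [Nat.log_mul_base (by norm_num) hN.ne']
    set L := Nat.log 2 N + 1 with hL
    have hL1 : 1 ≤ L := by omega
    have h1 : q₁ ≤ 8 * L := by omega
    have h2 : q₂ ≤ 4 * L := by omega
    have h3 : q₁ * q₁ ≤ (8 * L) * (8 * L) := Nat.mul_le_mul h1 h1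
    have h4 : q₂ * q₂ ≤ (4 * L) * (4 * L) := Nat.mul_le_mul h2 h2
    have h5 : L * (q₂ * q₂) ≤ L * ((4 * L) * (4 * L)) := Nat.mul_le_mul_left L h4
    have h6 : 1 ≤ L ^ 3 := Nat.one_le_pow _ _ hL1
    have h7 : L * L ≤ L ^ 3 := by
      calc L * L = L ^ 2 := by ring
        _ ≤ L ^ 3 := Nat.pow_le_pow_right hL1 (by norm_num)
    nlinarith
  · intro G D h
    obtain ⟨f, hf⟩ := (cpt_net h.1).embedding h.2.isAcyclic E₁ hE₁ E₂ hE₂
    let e := Fintype.equivFin (Idx (Fin N) q₁ q₂)
    refine ⟨fun i c => f i (e.symm c), 1 / 264, by norm_num, fun i j => ?_⟩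
    have hsum : ∑ c, |f i (e.symm c) - f j (e.symm c)| = l1 (f i - f j) := by
      unfold l1
      exact Equiv.sum_comp e.symm (fun c => |f i c - f j c|)
    simp only
    rw [hsum, dD_eq h.1]
    have := hf i j
    constructor
    · linarith [this.1]
    · linarith [this.2]

/-- **Main theorem.**  There is a constant `C ≥ 1` such that `k_C(N) = O(log³ N)`; in particular
`k_C(N) = N^{o(1)}`. -/
theorem result : ∃ C : ℝ, 1 ≤ C ∧ (∀ N, Suffices C N (kC C N)) ∧
    (∃ A : ℝ, ∀ N : ℕ, 2 ≤ N → (kC C N : ℝ) ≤ A * Real.log N ^ 3) ∧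
    Tendsto (fun N : ℕ => Real.log (kC C N) / Real.log N) atTop (𝓝 0) := by
  have hbound : ∀ N : ℕ, 2 ≤ N → (kC 86064 N : ℝ) ≤ 5211 * Real.log N ^ 3 := by
    intro N hN
    obtain ⟨k, hk, hs⟩ := exists_dim N
    have h1 : kC 86064 N ≤ k := Nat.sInf_le hs
    have h2 : (kC 86064 N : ℝ) ≤ 193 * ((Nat.log 2 N : ℝ) + 1) ^ 3 := by
      exact_mod_cast h1.trans hk
    have hlog2 : (0.6931471803 : ℝ) < Real.log 2 := Real.log_two_gt_d9
    have hlogN : Real.log 2 ≤ Real.log N :=
      Real.log_le_log (by norm_num) (by exact_mod_cast hN)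
    have h3 : (Nat.log 2 N : ℝ) * Real.log 2 ≤ Real.log N := by
      rw [← Real.log_pow]
      apply Real.log_le_log (by positivity)
      exact_mod_cast Nat.pow_log_le_self 2 (by omega)
    have h4 : (Nat.log 2 N : ℝ) + 1 ≤ 3 * Real.log N := by
      have h5 : ((Nat.log 2 N : ℝ) + 1) * Real.log 2 ≤ 2 * Real.log N := by linarith
      have h6 : 0 ≤ (Nat.log 2 N : ℝ) + 1 := by positivity
      nlinarith
    calc (kC 86064 N : ℝ) ≤ 193 * ((Nat.log 2 N : ℝ) + 1) ^ 3 := h2
      _ ≤ 193 * (3 * Real.log N) ^ 3 := by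
        apply mul_le_mul_of_nonneg_left _ (by norm_num)
        exact pow_le_pow_left₀ (by positivity) h4 3
      _ = 5211 * Real.log N ^ 3 := by ring
  refine ⟨86064, by norm_num, ?_, ⟨5211, hbound⟩, ?_⟩
  · intro N
    obtain ⟨k, _, hs⟩ := exists_dim N
    exact Nat.sInf_mem (s := {k | Suffices 86064 N k}) ⟨k, hs⟩
  · have hlim1 : Tendsto (fun N : ℕ => Real.log N) atTop atTop :=
      Real.tendsto_log_atTop.comp tendsto_natCast_atTop_atTop
    have hlim2 : Tendsto (fun N : ℕ => Real.log 5211 / Real.log N +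
        3 * (Real.log (Real.log N) / Real.log N)) atTop (𝓝 0) := by
      have a1 : Tendsto (fun N : ℕ => Real.log 5211 / Real.log N) atTop (𝓝 0) :=
        hlim1.const_div_atTop _
      have a2 : Tendsto (fun N : ℕ => Real.log (Real.log N) / Real.log N) atTop (𝓝 0) := by
        have := Real.isLittleO_log_id_atTop.tendsto_div_nhds_zero
        exact this.comp hlim1
      have := a1.add (a2.const_mul 3)
      simpa using this
    refine squeeze_zero' ?_ ?_ hlim2
    · exact Eventually.of_forall fun N =>
        div_nonneg (Real.log_natCast_nonneg _) (Real.log_natCast_nonneg _)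
    · filter_upwards [eventually_ge_atTop 3] with N hN
      have hlog1 : 1 ≤ Real.log N := by
        rw [Real.le_log_iff_exp_le (by positivity)]
        have h3 : (3 : ℝ) ≤ N := by exact_mod_cast hN
        linarith [Real.exp_one_lt_d9]
      have hpos : 0 < Real.log N := by linarith
      have h1 := hbound N (by omega)
      have h2 : Real.log (kC 86064 N) ≤ Real.log (5211 * Real.log N ^ 3) := by
        rcases Nat.eq_zero_or_pos (kC 86064 N) with h0 | h0
        · rw [h0, Nat.cast_zero, Real.log_zero]
          apply Real.log_nonneg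
          have : 1 ≤ Real.log N ^ 3 := one_le_pow₀ hlog1
          linarith
        · exact Real.log_le_log (by exact_mod_cast h0) h1
      rw [Real.log_mul (by norm_num) (by positivity), Real.log_pow] at h2
      rw [← mul_div_assoc, ← add_div]
      apply div_le_div_of_nonneg_right _ hpos.le
      push_cast at h2
      linarith

end Pool.Agent.Results.MP_bd47c3_lc.Embedding
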